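import Mathlib

set_option autoImplicit false

namespace Pool.Agent.Results.MP_f90694_nt.Full

/-- The defining recurrence of the meta-Fibonacci sequence `h : ℤ → ℤ`. -/
def IsH (h : ℤ → ℤ) : Prop :=
  (∀ n, n ≤ 0 → h n = 1) ∧ h 1 = 1 ∧ ∀ n, 1 < n → h n = h (n - h (n - 1)) + h (n - 2)

/-- `u_i`: increasing enumeration of `{m ∈ ℕ : h(m) mod 2 = i}`. -/
noncomputable def u (h : ℤ → ℤ) (i : ℤ) (n : ℕ) : ℕ := Nat.nth (fun m : ℕ => h m % 2 = i) n

/-- `k`-regular: the `ℤ`-span of the `k`-kernel is finitely generated. -/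
def KRegular (k : ℕ) (a : ℕ → ℤ) : Prop :=
  (Submodule.span ℤ {f : ℕ → ℤ | ∃ e r : ℕ, r < k ^ e ∧ f = fun n => a (k ^ e * n + r)}).FG

lemma reg_of_state {Q : Type} [Finite Q] (σ : ℕ → Q)
    (hσ : ∀ x y, σ x = σ y → σ (2 * x) = σ (2 * y) ∧ σ (2 * x + 1) = σ (2 * y + 1))
    (a : ℕ → ℤ) (ha : ∀ x y, σ x = σ y → a x - 2 * x = a y - 2 * y) : KRegular 2 a := by
  classical
  let L : (ℤ × (Q → ℤ)) →ₗ[ℤ] (ℕ → ℤ) :=
    { toFun := fun p n => p.1 * n + p.2 (σ n)
      map_add' := fun p q => by funext n; simp; ring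
      map_smul' := fun c p => by funext n; simp; ring }
  have hk : ∀ e r, r < 2 ^ e → ∀ x y, σ x = σ y → σ (2 ^ e * x + r) = σ (2 ^ e * y + r) := by
    intro e
    induction e with
    | zero =>
      intro r hr x y hxy
      have : r = 0 := by omega
      subst this
      simpa using hxy
    | succ e ih =>
      intro r hr x y hxy
      rw [pow_succ] at hr
      have h1 := hσ _ _ (ih (r / 2) (by omega) x y hxy)
      have e1 : ∀ z, 2 ^ (e + 1) * z = 2 * (2 ^ e * z) := fun z => by ring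
      rcases Nat.mod_two_eq_zero_or_one r with h | h
      · rw [show 2 ^ (e + 1) * x + r = 2 * (2 ^ e * x + r / 2) by rw [e1]; omega,
          show 2 ^ (e + 1) * y + r = 2 * (2 ^ e * y + r / 2) by rw [e1]; omega]
        exact h1.1
      · rw [show 2 ^ (e + 1) * x + r = 2 * (2 ^ e * x + r / 2) + 1 by rw [e1]; omega,
          show 2 ^ (e + 1) * y + r = 2 * (2 ^ e * y + r / 2) + 1 by rw [e1]; omega]
        exact h1.2
  have hfg : (LinearMap.range L).FG := by
    rw [LinearMap.range_eq_map]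
    exact (Module.Finite.fg_top).map L
  refine Submodule.FG.of_le hfg (Submodule.span_le.mpr ?_)
  rintro f ⟨e, r, hr, rfl⟩
  refine ⟨(2 ^ (e + 1), fun q => if hq : ∃ x, σ x = q then
    a (2 ^ e * hq.choose + r) - 2 ^ (e + 1) * hq.choose else 0), ?_⟩
  funext n
  have hq : ∃ x, σ x = σ n := ⟨n, rfl⟩
  show (2 : ℤ) ^ (e + 1) * n + (if hq : ∃ x, σ x = σ n then
    a (2 ^ e * hq.choose + r) - 2 ^ (e + 1) * hq.choose else 0) = a (2 ^ e * n + r)
  rw [dif_pos hq]
  have := ha _ _ (hk e r hr _ _ hq.choose_spec)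
  push_cast at this
  rw [pow_succ]
  linarith

lemma h_rec (h : ℤ → ℤ) (hh : IsH h) (m : ℕ) :
    h (2 * m + 1) = m + 1 ∧ h (2 * m + 2) = h (2 * m) + h (m + 1) ∧ 2 * (m : ℤ) + 2 ≤ h (2 * m + 2) := by
  obtain ⟨h0, h1, h2⟩ := hh
  induction m using Nat.strong_induction_on with
  | _ m ih =>
    rcases m with _ | m
    · have a := h2 2 (by norm_num)
      norm_num [h1, h0 0 le_rfl] at a ⊢
      omega
    · obtain ⟨i1, i2, i3⟩ := ih m (by omega)
      have a1 := h2 (2 * m + 3) (by omega)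
      have a2 := h2 (2 * m + 4) (by omega)
      rw [show (2 * m + 3 - 1 : ℤ) = 2 * m + 2 by ring,
        show (2 * m + 3 - 2 : ℤ) = 2 * m + 1 by ring, i1] at a1
      have a3 : h (2 * m + 3 - h (2 * m + 2)) = 1 := by
        rcases eq_or_lt_of_le (show 2 * (m : ℤ) + 3 - h (2 * m + 2) ≤ 1 by omega) with e | e
        · rw [e, h1]
        · exact h0 _ (by omega)
      rw [a3] at a1
      rw [show (2 * m + 4 - 1 : ℤ) = 2 * m + 3 by ring, a1,
        show (2 * m + 4 - (1 + (m + 1)) : ℤ) = m + 2 by ring,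
        show (2 * m + 4 - 2 : ℤ) = 2 * m + 2 by ring] at a2
      have a4 : 2 ≤ h (m + 2) := by
        rcases Nat.even_or_odd' m with ⟨j, rfl | rfl⟩
        · have := (ih j (by omega)).2.2
          push_cast
          omega
        · have := (ih (j + 1) (by omega)).1
          push_cast at this ⊢
          rw [show (2 * j + 1 + 2 : ℤ) = 2 * (j + 1) + 1 by ring, this]
          omega
      push_cast
      rw [show (2 * (m + 1) + 1 : ℤ) = 2 * m + 3 by ring, show (2 * (m + 1) + 2 : ℤ) = 2 * m + 4 by ring,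
        show (2 * (m + 1) : ℤ) = 2 * m + 2 by ring, show (m + 1 + 1 : ℤ) = m + 2 by ring]
      omega

/-- block pattern -/
def pat (A s j : ℕ) : ℕ :=
  if j % 4 = 1 then 1 else if j % 4 = 3 then 0 else if j = 0 then A else if j = 2 then 1 - A
  else if j = 4 ∨ j = 6 then s % 2 else if j = 8 then s / 2 % 2
  else if j = 10 then 1 - s / 2 % 2 else 1 - s % 2

section
variable (R : ℕ → ℕ) (hlt : ∀ m, R m < 2) (hodd : ∀ n, R (2 * n + 1) = (n + 1) % 2)
  (hev : ∀ n, R (2 * n + 2) = (R (2 * n) + R (n + 1)) % 2)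
include hlt hodd hev

set_option linter.unusedSectionVars false in
lemma r4 (m : ℕ) : R (4 * m + 2) = (R (4 * m) + m + 1) % 2 ∧
    R (4 * m + 4) = (R (4 * m) + m + 1 + R (2 * m + 2)) % 2 := by
  have a1 := hev (2 * m)
  have a2 := hev (2 * m + 1)
  have a3 := hodd m
  rw [show 2 * (2 * m) + 2 = 4 * m + 2 by ring, show 2 * (2 * m) = 4 * m by ring] at a1
  rw [show 2 * (2 * m + 1) + 2 = 4 * m + 4 by ring, show 2 * (2 * m + 1) = 4 * m + 2 by ring,
    show 2 * m + 1 + 1 = 2 * m + 2 by ring] at a2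
  omega

lemma r8 (m : ℕ) : R (8 * m + 2) = (R (8 * m) + 1) % 2 ∧
    R (8 * m + 4) = (R (8 * m) + R (4 * m) + m) % 2 ∧ R (8 * m + 6) = R (8 * m + 4) ∧
    R (8 * m + 8) = (R (8 * m + 4) + R (4 * m + 4)) % 2 := by
  have a1 := r4 R hlt hodd hev (2 * m)
  have a2 := r4 R hlt hodd hev (2 * m + 1)
  have a3 := r4 R hlt hodd hev m
  have := hlt (8 * m + 4)
  rw [show 4 * (2 * m) + 2 = 8 * m + 2 by ring, show 4 * (2 * m) + 4 = 8 * m + 4 by ring,
    show 4 * (2 * m) = 8 * m by ring, show 2 * (2 * m) + 2 = 4 * m + 2 by ring] at a1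
  rw [show 4 * (2 * m + 1) + 2 = 8 * m + 6 by ring, show 4 * (2 * m + 1) + 4 = 8 * m + 8 by ring,
    show 4 * (2 * m + 1) = 8 * m + 4 by ring, show 2 * (2 * m + 1) + 2 = 4 * m + 4 by ring] at a2
  omega

lemma rT (m : ℕ) : (R (8 * m) + R (4 * m)) % 2 = m / 2 % 2 := by
  induction m with
  | zero => simp; omega
  | succ m ih =>
    have a := r8 R hlt hodd hev m
    rw [show 8 * (m + 1) = 8 * m + 8 by ring, show 4 * (m + 1) = 4 * m + 4 by ring, a.2.2.2,
      a.2.1]
    have l1 := hlt (8 * m)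
    have l2 := hlt (4 * m)
    have l3 := hlt (4 * m + 4)
    clear a
    generalize R (8 * m) = x at *
    generalize R (4 * m) = y at *
    generalize R (4 * m + 4) = z at *
    interval_cases x <;> interval_cases y <;> interval_cases z <;> omega

lemma rblock (n j : ℕ) (hj : j < 16) : R (16 * n + j) = pat (R (16 * n)) (n % 4) j := by
  have a1 := r8 R hlt hodd hev (2 * n)
  have a2 := r8 R hlt hodd hev (2 * n + 1)
  have a3 := r8 R hlt hodd hev n
  have t1 := rT R hlt hodd hev (2 * n)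
  have t2 := rT R hlt hodd hev (2 * n + 1)
  have t3 := rT R hlt hodd hev n
  have l1 := hlt (16 * n)
  have l2 := hlt (16 * n + 8)
  have o0 := hodd (8 * n)
  have o1 := hodd (8 * n + 1)
  have o2 := hodd (8 * n + 2)
  have o3 := hodd (8 * n + 3)
  have o4 := hodd (8 * n + 4)
  have o5 := hodd (8 * n + 5)
  have o6 := hodd (8 * n + 6)
  have o7 := hodd (8 * n + 7)
  ring_nf at a1 a2 a3 t1 t2 t3 l1 l2 o0 o1 o2 o3 o4 o5 o6 o7
  interval_cases j <;> simp only [pat] <;> norm_num <;> ring_nf <;> omega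

lemma ra (m : ℕ) : R (16 * (2 * m)) = R (16 * m) ∧ R (16 * (2 * m + 1)) = (m / 2 + 1) % 2 := by
  have t1 := rT R hlt hodd hev (4 * m)
  have t2 := rT R hlt hodd hev (4 * m + 2)
  have b := rblock R hlt hodd hev m 8 (by norm_num)
  have l1 := hlt (32 * m)
  have l2 := hlt (16 * m)
  have l3 := hlt (32 * m + 16)
  simp only [pat] at b
  norm_num at b
  ring_nf at t1 t2 b l1 l2 l3 ⊢
  omega

lemma cnt (i : ℕ) (n j : ℕ) (hj : j ≤ 16) :
    Nat.count (fun m => R m = i) (16 * n + j) = Nat.count (fun m => R m = i) (16 * n) +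
      Nat.count (fun m => pat (R (16 * n)) (n % 4) m = i) j := by
  rw [Nat.count_add]
  congr 1
  apply le_antisymm
  · exact Nat.count_mono_left (fun k hk e => by rw [← rblock R hlt hodd hev n k (by omega)]; exact e)
  · exact Nat.count_mono_left (fun k hk e => by rw [rblock R hlt hodd hev n k (by omega)]; exact e)

omit hlt hodd hev in
lemma pat_fin : ∀ i < 2, ∀ A < 2, ∀ s < 4, Nat.count (fun m => pat A s m = i) 16 = 8 ∧
    ∀ c < 8, ∃ j < 16, pat A s j = i ∧ Nat.count (fun m => pat A s m = i) j = c := by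
  decide +kernel

lemma cnt16 (i : ℕ) (hi : i < 2) (n : ℕ) : Nat.count (fun m => R m = i) (16 * n) = 8 * n := by
  induction n with
  | zero => simp
  | succ n ih =>
    rw [show 16 * (n + 1) = 16 * n + 16 by ring, cnt R hlt hodd hev i n 16 le_rfl, ih,
      (pat_fin i hi _ (hlt _) _ (Nat.mod_lt _ (by norm_num))).1]
    ring

lemma main (i : ℕ) (hi : i < 2) :
    KRegular 2 (fun n => (Nat.nth (fun m => R m = i) n : ℤ)) := by
  refine reg_of_state (Q := Fin 2 × Fin 32)
    (fun x => (⟨R (16 * (x / 8)), hlt _⟩, ⟨x % 32, Nat.mod_lt _ (by norm_num)⟩)) ?_ _ ?_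
  · intro x y hxy
    simp only [Prod.mk.injEq, Fin.mk.injEq] at hxy ⊢
    obtain ⟨h1, h2⟩ := hxy
    have key : R (16 * (x / 4)) = R (16 * (y / 4)) := by
      have a1 := ra R hlt hodd hev (x / 8)
      have a2 := ra R hlt hodd hev (y / 8)
      by_cases hx : x / 4 % 2 = 0
      · rw [show x / 4 = 2 * (x / 8) by omega, show y / 4 = 2 * (y / 8) by omega, a1.1, a2.1, h1]
      · rw [show x / 4 = 2 * (x / 8) + 1 by omega, show y / 4 = 2 * (y / 8) + 1 by omega,
          a1.2, a2.2]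
        omega
    refine ⟨⟨?_, by omega⟩, ?_, by omega⟩
    · rw [show 2 * x / 8 = x / 4 by omega, show 2 * y / 8 = y / 4 by omega, key]
    · rw [show (2 * x + 1) / 8 = x / 4 by omega, show (2 * y + 1) / 8 = y / 4 by omega, key]
  · intro x y hxy
    simp only [Prod.mk.injEq, Fin.mk.injEq] at hxy
    obtain ⟨h1, h2⟩ := hxy
    obtain ⟨j, hj, p1, p2⟩ := (pat_fin i hi _ (hlt (16 * (x / 8))) (x / 8 % 4)
      (Nat.mod_lt _ (by norm_num))).2 (x % 8) (Nat.mod_lt _ (by norm_num))
    have gen : ∀ z, R (16 * (z / 8)) = R (16 * (x / 8)) → z % 32 = x % 32 →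
        Nat.nth (fun m => R m = i) z = 16 * (z / 8) + j := by
      intro z z1 z2
      have z3 : z / 8 % 4 = x / 8 % 4 := by omega
      have c1 : Nat.count (fun m => R m = i) (16 * (z / 8) + j) = z := by
        rw [cnt R hlt hodd hev i _ j hj.le, cnt16 R hlt hodd hev i hi, z1, z3, p2]
        omega
      have c2 : R (16 * (z / 8) + j) = i := by
        rw [rblock R hlt hodd hev _ j hj, z1, z3, p1]
      conv_lhs => rw [← c1]
      exact Nat.nth_count (p := fun m => R m = i) c2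
    rw [gen x rfl rfl, gen y h1.symm h2.symm]
    push_cast
    omega

end

theorem result (h : ℤ → ℤ) (hh : IsH h) (i : ℤ) (hi : i = 0 ∨ i = 1) :
    KRegular 2 (fun n => (u h i n : ℤ)) := by
  have hm := main (fun m : ℕ => (h m % 2).toNat) (fun m => by omega) (fun n => by
      have := (h_rec h hh n).1
      push_cast
      omega) (fun n => by
      have := (h_rec h hh n).2.1
      push_cast
      omega) i.toNat (by omega)
  have e : (fun m : ℕ => h m % 2 = i) = (fun m : ℕ => (h m % 2).toNat = i.toNat) := by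
    funext m
    apply propext
    omega
  unfold u
  rw [e]
  exact hm

end Pool.Agent.Results.MP_f90694_nt.Full
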